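import Mathlib

/-! Identity theorem: a holomorphic function on a ball of `ℂ ^ m` which vanishes on a real set of positive measure. -/

set_option autoImplicit false

namespace Pool.Agent.Helper91.SLC

open MeasureTheory Set Metric Filter Topology

theorem diff_cons_l {m : ℕ} (Y : Fin m → ℂ) : Differentiable ℂ (fun t : ℂ => (Fin.cons t Y : Fin (m + 1) → ℂ)) := by
  rw [differentiable_pi]
  intro i
  refine Fin.cases ?_ (fun j => ?_) i
  · simp
  · simp

theorem diff_cons_r {m : ℕ} (t : ℂ) : Differentiable ℂ (fun Y : Fin m → ℂ => (Fin.cons t Y : Fin (m + 1) → ℂ)) := by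
  rw [differentiable_pi]
  intro i
  refine Fin.cases ?_ (fun j => ?_) i
  · simp
  · simpa using differentiable_apply j

theorem cons_ball {m : ℕ} {t : ℂ} {Y : Fin m → ℂ} {R : ℝ} (hR : 0 < R) (ht : ‖t‖ < R) (hY : Y ∈ ball (0 : Fin m → ℂ) R) :
    (Fin.cons t Y : Fin (m + 1) → ℂ) ∈ ball (0 : Fin (m + 1) → ℂ) R := by
  rw [mem_ball_zero_iff, pi_norm_lt_iff hR] at hY ⊢
  intro i
  refine Fin.cases ?_ (fun j => ?_) i
  · simpa using ht
  · simpa using hY j

theorem ofReal_punct (t : ℝ) : Tendsto (fun u : ℝ => (u : ℂ)) (𝓝[≠] t) (𝓝[≠] (t : ℂ)) := by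
  refine tendsto_nhdsWithin_iff.mpr ⟨?_, ?_⟩
  · exact (Complex.continuous_ofReal.tendsto t).mono_left nhdsWithin_le_nhds
  · filter_upwards [self_mem_nhdsWithin] with u hu
    intro h
    exact hu (Complex.ofReal_injective h)

/-- IDENTITY THEOREM on a real set of positive measure -/
theorem ident (m : ℕ) {R : ℝ} (hR : 1 < R) : ∀ {F : (Fin m → ℂ) → ℂ}, DifferentiableOn ℂ F (ball 0 R) →
    ∀ A : Set (Fin m → ℝ), (∀ y ∈ A, (∀ i, 0 ≤ y i ∧ y i ≤ 1) ∧ F (fun i => (y i : ℂ)) = 0) → volume A ≠ 0 →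
    ∀ y ∈ ball (0 : Fin m → ℂ) R, F y = 0 := by
  have hR0 : 0 < R := by linarith
  induction m with
  | zero =>
    intro F _ A hA hne y _
    obtain ⟨a, ha⟩ := nonempty_of_measure_ne_zero hne
    have h1 : y = fun i => ((a i : ℝ) : ℂ) := funext fun i => i.elim0
    rw [h1]
    exact (hA a ha).2
  | succ m ih =>
    intro F hF A hA hne
    set Z : Set (Fin (m + 1) → ℝ) := Icc 0 1 ∩ (fun y : Fin (m + 1) → ℝ => F (fun i => (y i : ℂ))) ⁻¹' {0} with hZ
    have hmap : ∀ y ∈ Icc (0 : Fin (m + 1) → ℝ) 1, (fun i => ((y i : ℝ) : ℂ)) ∈ ball (0 : Fin (m + 1) → ℂ) R := by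
      intro y hy
      rw [mem_ball_zero_iff, pi_norm_lt_iff hR0]
      intro i
      rw [Complex.norm_real, Real.norm_eq_abs, abs_of_nonneg (hy.1 i)]
      exact lt_of_le_of_lt (hy.2 i) hR
    have hcont : ContinuousOn (fun y : Fin (m + 1) → ℝ => F (fun i => (y i : ℂ))) (Icc 0 1) := by
      refine hF.continuousOn.comp ?_ hmap
      exact (continuous_pi fun i => Complex.continuous_ofReal.comp (continuous_apply i)).continuousOn
    have hZm : MeasurableSet Z :=
      (hcont.preimage_isClosed_of_isClosed isClosed_Icc isClosed_singleton).measurableSet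
    have hZ0 : volume Z ≠ 0 := by
      intro h
      apply hne
      refine measure_mono_null (fun y hy => ?_) h
      obtain ⟨h1, h2⟩ := hA y hy
      exact ⟨⟨fun i => (h1 i).1, fun i => (h1 i).2⟩, h2⟩
    have hmp := volume_preserving_piFinSuccAbove (fun _ : Fin (m + 1) => ℝ) 0
    set e := MeasurableEquiv.piFinSuccAbove (fun _ : Fin (m + 1) => ℝ) 0 with he
    have hes : ∀ (t : ℝ) (y : Fin m → ℝ), e.symm (t, y) = (Fin.cons t y : Fin (m + 1) → ℝ) := by
      intro t y
      funext i
      refine Fin.cases ?_ (fun j => ?_) i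
      · simp [he, MeasurableEquiv.piFinSuccAbove_symm_apply, Fin.insertNthEquiv]
      · simp [he, MeasurableEquiv.piFinSuccAbove_symm_apply, Fin.insertNthEquiv]
    have hZ1 : volume (e.symm ⁻¹' Z) ≠ 0 := by
      rw [(hmp.symm e).measure_preimage hZm.nullMeasurableSet]
      exact hZ0
    have hZ2 : MeasurableSet (e.symm ⁻¹' Z) := e.symm.measurable hZm
    set T0 : Set ℝ := {t | volume (Prod.mk t ⁻¹' (e.symm ⁻¹' Z)) ≠ 0} with hT0
    have hsub : T0 ⊆ Icc 0 1 := by
      intro t ht
      obtain ⟨y, hy⟩ := nonempty_of_measure_ne_zero ht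
      have h1 : e.symm (t, y) ∈ Z := hy
      rw [hes] at h1
      have h2 := h1.1.1 0
      have h3 := h1.1.2 0
      exact ⟨by simpa using h2, by simpa using h3⟩
    have hinf : T0.Infinite := by
      intro hfin
      apply hZ1
      have h1 : (volume : Measure (ℝ × (Fin m → ℝ))) = (volume : Measure ℝ).prod volume := rfl
      rw [h1, Measure.measure_prod_null hZ2]
      have h2 : (volume : Measure ℝ) T0 = 0 := hfin.measure_zero _
      rw [Filter.EventuallyEq, ae_iff]
      exact h2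
    obtain ⟨t0, ht0, hacc⟩ := hinf.exists_accPt_of_subset_isCompact isCompact_Icc hsub
    rw [accPt_iff_frequently_nhdsNE] at hacc
    have htn : ∀ t ∈ Icc (0 : ℝ) 1, ‖(t : ℂ)‖ < R := by
      intro t ht
      rw [Complex.norm_real, Real.norm_eq_abs, abs_of_nonneg ht.1]
      exact lt_of_le_of_lt ht.2 hR
    have hvan : ∀ t ∈ T0, ∀ y' ∈ ball (0 : Fin m → ℂ) R, F (Fin.cons (t : ℂ) y') = 0 := by
      intro t ht
      refine ih (F := fun y' => F (Fin.cons (t : ℂ) y')) ?_ (Prod.mk t ⁻¹' (e.symm ⁻¹' Z)) ?_ ht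
      · refine hF.comp (diff_cons_r (t : ℂ)).differentiableOn fun y' hy' => ?_
        exact cons_ball hR0 (htn t (hsub ht)) hy'
      · intro y hy
        have h1 : e.symm (t, y) ∈ Z := hy
        rw [hes] at h1
        refine ⟨fun i => ⟨by simpa using h1.1.1 i.succ, by simpa using h1.1.2 i.succ⟩, ?_⟩
        have h2 : F (fun i => (((Fin.cons t y : Fin (m + 1) → ℝ) i : ℝ) : ℂ)) = 0 := h1.2
        rw [← h2]
        congr 1
        funext i
        refine Fin.cases ?_ (fun j => ?_) i
        · simp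
        · simp
    intro y hy
    have hy0 : ‖y 0‖ < R := lt_of_le_of_lt (norm_le_pi_norm y 0) (mem_ball_zero_iff.mp hy)
    have hyt : (fun j : Fin m => y j.succ) ∈ ball (0 : Fin m → ℂ) R := by
      rw [mem_ball_zero_iff, pi_norm_lt_iff hR0]
      exact fun j => lt_of_le_of_lt (norm_le_pi_norm y j.succ) (mem_ball_zero_iff.mp hy)
    have hf : DifferentiableOn ℂ (fun u : ℂ => F (Fin.cons u (fun j : Fin m => y j.succ))) (ball 0 R) := by
      refine hF.comp (diff_cons_l _).differentiableOn fun u hu => ?_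
      exact cons_ball hR0 (mem_ball_zero_iff.mp hu) hyt
    have h3 := (hf.analyticOnNhd isOpen_ball).eqOn_zero_of_preconnected_of_frequently_eq_zero
      (convex_ball (0 : ℂ) R).isPreconnected (z₀ := (t0 : ℂ)) (by
        rw [mem_ball_zero_iff]
        exact htn t0 ht0) ((ofReal_punct t0).frequently (hacc.mono fun t ht => hvan t ht _ hyt))
    have h4 : (Fin.cons (y 0) (fun j : Fin m => y j.succ) : Fin (m + 1) → ℂ) = y := by
      funext i
      refine Fin.cases ?_ (fun j => ?_) i
      · simp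
      · simp
    have h5 := h3 (mem_ball_zero_iff.mpr hy0)
    simp only [h4] at h5
    exact h5

end Pool.Agent.Helper91.SLC
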