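import Pool.Agent.Helper76.RL.Cht
import Pool.Agent.Helper91.SLC.Idt

/-! THE POINT ON THE SLICE of a chart of a form (row SLICE): along a segment on which the polynomial chart `T` is bounded
and one of its entries is steep there is a zero of this entry, and the analytic inverse `G` of the chart is defined there. -/

set_option autoImplicit false

namespace Pool.Agent.Helper91.SLC

open MvPolynomial MeasureTheory Set Metric Filter Topology
open Pool.Agent.Helper76.RL (rc eval_rc)

/-! ### polynomials of one variable -/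

/-- the coefficients are bounded by the values -/
theorem coeff_bound (D : ℕ) : ∃ K : ℝ, 1 ≤ K ∧ ∀ P : Polynomial ℝ, P.natDegree ≤ D → ∀ Λ : ℝ,
    (∀ s : ℝ, |s| ≤ 1 → |P.eval s| ≤ Λ) → ∀ i, |P.coeff i| ≤ K * Λ := by
  classical
  set v : Fin (D + 1) → ℝ := fun j => ((j : ℕ) : ℝ) / ((D : ℝ) + 1) with hv
  have hD : (0 : ℝ) < (D : ℝ) + 1 := by positivity
  have hinj : Set.InjOn v (Finset.univ : Finset (Fin (D + 1))) := by
    intro a _ b _ hab
    have h1 : ((a : ℕ) : ℝ) / ((D : ℝ) + 1) = ((b : ℕ) : ℝ) / ((D : ℝ) + 1) := hab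
    rw [div_left_inj' hD.ne'] at h1
    exact Fin.ext (by exact_mod_cast h1)
  have hv1 : ∀ j, |v j| ≤ 1 := by
    intro j
    rw [hv, abs_of_nonneg (by positivity), div_le_one hD]
    have : ((j : ℕ) : ℝ) ≤ D := by exact_mod_cast Nat.lt_succ_iff.mp j.2
    linarith
  set B : Fin (D + 1) → Polynomial ℝ := fun j => Lagrange.basis Finset.univ v j with hB
  set K : ℝ := 1 + ∑ j, ∑ i ∈ Finset.range (D + 1), |(B j).coeff i| with hK
  have hKs : 0 ≤ ∑ j, ∑ i ∈ Finset.range (D + 1), |(B j).coeff i| :=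
    Finset.sum_nonneg fun _ _ => Finset.sum_nonneg fun _ _ => abs_nonneg _
  refine ⟨K, by linarith, fun P hP Λ hΛ i => ?_⟩
  have hΛ0 : 0 ≤ Λ := (abs_nonneg _).trans (hΛ 0 (by simp))
  by_cases hi : i < D + 1
  · have hdeg : P.degree < (Finset.univ : Finset (Fin (D + 1))).card := by
      rw [Finset.card_univ, Fintype.card_fin]
      exact (Polynomial.degree_le_natDegree).trans_lt (by exact_mod_cast Nat.lt_succ_of_le hP)
    have h1 := Lagrange.eq_interpolate (v := v) hinj hdeg
    rw [Lagrange.interpolate_apply] at h1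
    have h2 : P.coeff i = ∑ j, P.eval (v j) * (B j).coeff i := by
      conv_lhs => rw [h1]
      rw [Polynomial.finsetSum_coeff]
      exact Finset.sum_congr rfl fun j _ => Polynomial.coeff_C_mul _
    rw [h2]
    refine (Finset.abs_sum_le_sum_abs _ _).trans ?_
    have h3 : ∀ j ∈ (Finset.univ : Finset (Fin (D + 1))), |P.eval (v j) * (B j).coeff i| ≤
        (∑ i ∈ Finset.range (D + 1), |(B j).coeff i|) * Λ := by
      intro j _
      rw [abs_mul, mul_comm]
      refine mul_le_mul ?_ (hΛ _ (hv1 j)) (abs_nonneg _) (Finset.sum_nonneg fun _ _ => abs_nonneg _)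
      exact Finset.single_le_sum (f := fun i => |(B j).coeff i|) (fun _ _ => abs_nonneg _) (Finset.mem_range.mpr hi)
    refine (Finset.sum_le_sum h3).trans ?_
    rw [← Finset.sum_mul]
    exact mul_le_mul_of_nonneg_right (by linarith) hΛ0
  · rw [Polynomial.coeff_eq_zero_of_natDegree_lt (by omega), abs_zero]
    exact mul_nonneg (by linarith) hΛ0

/-- Taylor expansion of order one -/
theorem poly_two (D : ℕ) : ∃ K : ℝ, 1 ≤ K ∧ ∀ P : Polynomial ℝ, P.natDegree ≤ D → ∀ Λ : ℝ,
    (∀ s : ℝ, |s| ≤ 1 → |P.eval s| ≤ Λ) → |P.coeff 1| ≤ K * Λ ∧ ∀ s : ℝ, |s| ≤ 1 →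
      |P.eval s - P.coeff 0| ≤ K * Λ * |s| ∧ |P.eval s - P.coeff 0 - P.coeff 1 * s| ≤ K * Λ * s ^ 2 := by
  obtain ⟨K, hK, h⟩ := coeff_bound D
  refine ⟨((D : ℝ) + 1) * K, by nlinarith [(Nat.cast_nonneg D : (0 : ℝ) ≤ D)], fun P hP Λ hΛ => ?_⟩
  have hc := h P hP Λ hΛ
  have hΛ0 : 0 ≤ Λ := (abs_nonneg _).trans (hΛ 0 (by simp))
  have hKΛ : 0 ≤ K * Λ := mul_nonneg (by linarith) hΛ0
  have hDn : (0 : ℝ) ≤ D := Nat.cast_nonneg D
  refine ⟨(hc 1).trans (by nlinarith [mul_nonneg hDn hKΛ]), fun s hs => ?_⟩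
  have h1 : P.eval s = ∑ i ∈ Finset.range D, P.coeff (i + 2) * s ^ (i + 2) + P.coeff 1 * s + P.coeff 0 := by
    rw [Polynomial.eval_eq_sum_range' (n := D + 2) (by omega), Finset.sum_range_succ', Finset.sum_range_succ']
    simp only [zero_add, pow_one, pow_zero, mul_one]
  have h2 : |∑ i ∈ Finset.range D, P.coeff (i + 2) * s ^ (i + 2)| ≤ (D : ℝ) * (K * Λ) * s ^ 2 := by
    refine (Finset.abs_sum_le_sum_abs _ _).trans ?_
    have h3 : ∀ i ∈ Finset.range D, |P.coeff (i + 2) * s ^ (i + 2)| ≤ (K * Λ) * s ^ 2 := by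
      intro i _
      rw [abs_mul]
      refine mul_le_mul (hc _) ?_ (abs_nonneg _) hKΛ
      rw [abs_pow, pow_add, sq_abs]
      have : |s| ^ i ≤ 1 := pow_le_one₀ (abs_nonneg _) hs
      nlinarith [sq_nonneg s]
    refine (Finset.sum_le_sum h3).trans (le_of_eq ?_)
    rw [Finset.sum_const, Finset.card_range, nsmul_eq_mul]
    ring
  have hs2 : s ^ 2 ≤ |s| := by
    rw [← sq_abs]
    nlinarith [abs_nonneg s]
  constructor
  · have e1 : P.eval s - P.coeff 0 = ∑ i ∈ Finset.range D, P.coeff (i + 2) * s ^ (i + 2) + P.coeff 1 * s := by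
      rw [h1]
      ring
    rw [e1]
    refine (abs_add_le _ _).trans ?_
    have h4 : |P.coeff 1 * s| ≤ K * Λ * |s| := by
      rw [abs_mul]
      exact mul_le_mul_of_nonneg_right (hc 1) (abs_nonneg _)
    have h5 : (D : ℝ) * (K * Λ) * s ^ 2 ≤ (D : ℝ) * (K * Λ) * |s| :=
      mul_le_mul_of_nonneg_left hs2 (mul_nonneg hDn hKΛ)
    calc _ ≤ (D : ℝ) * (K * Λ) * |s| + K * Λ * |s| := add_le_add (h2.trans h5) h4
      _ = ((D : ℝ) + 1) * K * Λ * |s| := by ring
  · have e1 : P.eval s - P.coeff 0 - P.coeff 1 * s = ∑ i ∈ Finset.range D, P.coeff (i + 2) * s ^ (i + 2) := by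
      rw [h1]
      ring
    rw [e1]
    refine h2.trans ?_
    have : 0 ≤ K * Λ * s ^ 2 := mul_nonneg hKΛ (sq_nonneg s)
    calc (D : ℝ) * (K * Λ) * s ^ 2 ≤ (D : ℝ) * (K * Λ) * s ^ 2 + K * Λ * s ^ 2 := by linarith
      _ = ((D : ℝ) + 1) * K * Λ * s ^ 2 := by ring

/-! ### restriction to a line -/

variable {m : ℕ}

/-- the restriction of a polynomial to the line `x + s w` -/
noncomputable def lnP (x w : Fin m → ℝ) : MvPolynomial (Fin m) ℝ →ₐ[ℝ] Polynomial ℝ :=
  aeval fun i => Polynomial.C (x i) + Polynomial.C (w i) * Polynomial.X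

theorem lnP_eval (x w : Fin m → ℝ) (T : MvPolynomial (Fin m) ℝ) (s : ℝ) :
    (lnP x w T).eval s = eval (fun i => x i + s * w i) T := by
  unfold lnP
  induction T using MvPolynomial.induction_on with
  | C a => simp
  | add p q hp hq => simp only [map_add, Polynomial.eval_add, hp, hq]
  | mul_X p i hp =>
    simp only [map_mul, aeval_X, Polynomial.eval_mul, hp, eval_X, Polynomial.eval_add, Polynomial.eval_C,
      Polynomial.eval_X]
    ring

theorem lnP_natDegree {D : ℕ} (x w : Fin m → ℝ) {T : MvPolynomial (Fin m) ℝ} (hT : T.totalDegree ≤ D) :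
    (lnP x w T).natDegree ≤ D := by
  have h := MvPolynomial.aeval_natDegree_le T hT
    (fun i => (Polynomial.C (x i) + Polynomial.C (w i) * Polynomial.X : Polynomial ℝ)) (n := 1) (fun i => by
      refine (Polynomial.natDegree_add_le _ _).trans (max_le ?_ ?_)
      · rw [Polynomial.natDegree_C]
        exact Nat.zero_le _
      · exact (Polynomial.natDegree_C_mul_le _ _).trans Polynomial.natDegree_X_le)
  rw [mul_one] at h
  exact h

theorem lnP_der (x w : Fin m → ℝ) (T : MvPolynomial (Fin m) ℝ) :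
    Polynomial.derivative (lnP x w T) = ∑ i, Polynomial.C (w i) * lnP x w (pderiv i T) := by
  have hX : ∀ i, lnP x w (X i) = Polynomial.C (x i) + Polynomial.C (w i) * Polynomial.X := fun i => aeval_X _ _
  induction T using MvPolynomial.induction_on with
  | C a => simp [lnP]
  | add p q hp hq => simp only [map_add, hp, hq, mul_add, Finset.sum_add_distrib]
  | mul_X p i hp =>
    rw [map_mul, Polynomial.derivative_mul, hp, hX]
    have h1 : Polynomial.derivative (Polynomial.C (x i) + Polynomial.C (w i) * Polynomial.X : Polynomial ℝ) =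
        Polynomial.C (w i) := by simp
    rw [h1]
    have h2 : ∀ j, Polynomial.C (w j) * lnP x w (pderiv j (p * X i)) =
        Polynomial.C (w j) * lnP x w (pderiv j p) * (Polynomial.C (x i) + Polynomial.C (w i) * Polynomial.X) +
          (if j = i then lnP x w p * Polynomial.C (w j) else 0) := by
      intro j
      rw [pderiv_mul, map_add, map_mul, map_mul, hX, pderiv_X]
      by_cases h : j = i
      · subst h
        rw [Pi.single_eq_same, map_one, if_pos rfl]
        ring
      · rw [Pi.single_eq_of_ne (fun h' => h h'.symm), map_zero, if_neg h]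
        ring
    rw [Finset.sum_congr rfl fun j _ => h2 j, Finset.sum_add_distrib, ← Finset.sum_mul, Finset.sum_ite_eq',
      if_pos (Finset.mem_univ i)]

theorem lnP_coeff_zero (x w : Fin m → ℝ) (T : MvPolynomial (Fin m) ℝ) : (lnP x w T).coeff 0 = eval x T := by
  rw [Polynomial.coeff_zero_eq_eval_zero, lnP_eval]
  simp

theorem lnP_coeff_one (x w : Fin m → ℝ) (T : MvPolynomial (Fin m) ℝ) :
    (lnP x w T).coeff 1 = ∑ i, w i * eval x (pderiv i T) := by
  have h1 : (Polynomial.derivative (lnP x w T)).coeff 0 = (lnP x w T).coeff 1 := by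
    rw [Polynomial.coeff_derivative]
    simp
  rw [← h1, lnP_der, Polynomial.finsetSum_coeff]
  refine Finset.sum_congr rfl fun i _ => ?_
  rw [Polynomial.coeff_C_mul, lnP_coeff_zero]

/-! ### complex polynomial maps -/

/-- the differential of a complex polynomial -/
noncomputable def dFc (q : MvPolynomial (Fin m) ℂ) (z : Fin m → ℂ) : (Fin m → ℂ) →L[ℂ] ℂ :=
  ∑ j, (eval z (pderiv j q)) • ContinuousLinearMap.proj (R := ℂ) (φ := fun _ : Fin m => ℂ) j

theorem dFc_apply (q : MvPolynomial (Fin m) ℂ) (z w : Fin m → ℂ) :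
    dFc q z w = ∑ j, eval z (pderiv j q) * w j := by
  simp [dFc]

theorem hasStrictC (q : MvPolynomial (Fin m) ℂ) (z : Fin m → ℂ) :
    HasStrictFDerivAt (fun y => eval y q) (dFc q z) z := by
  induction q using MvPolynomial.induction_on with
  | C a =>
    have : dFc (C a : MvPolynomial (Fin m) ℂ) z = 0 := by
      ext w
      simp [dFc_apply]
    rw [this]
    simpa using hasStrictFDerivAt_const a z
  | add p q hp hq =>
    have : dFc (p + q) z = dFc p z + dFc q z := by
      ext w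
      simp [dFc_apply, add_mul, Finset.sum_add_distrib]
    rw [this]
    have e : (fun y : Fin m → ℂ => eval y (p + q)) = (fun y => eval y p) + fun y => eval y q := by
      funext y
      simp
    rw [e]
    exact hp.add hq
  | mul_X p i hp =>
    have hx : HasStrictFDerivAt (fun y : Fin m → ℂ => y i)
        (ContinuousLinearMap.proj (R := ℂ) (φ := fun _ : Fin m => ℂ) i) z :=
      (ContinuousLinearMap.proj (R := ℂ) (φ := fun _ : Fin m => ℂ) i).hasStrictFDerivAt
    have : dFc (p * X i) z = eval z p • ContinuousLinearMap.proj (R := ℂ) (φ := fun _ : Fin m => ℂ) i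
        + z i • dFc p z := by
      ext w
      simp only [dFc_apply, _root_.add_apply, _root_.smul_apply,
        ContinuousLinearMap.proj_apply, smul_eq_mul]
      have h2 : ∀ j, eval z (pderiv j (p * X i)) * w j = z i * (eval z (pderiv j p) * w j) +
          (if j = i then eval z p * w j else 0) := by
        intro j
        rw [pderiv_mul, map_add, map_mul, map_mul, eval_X, pderiv_X]
        by_cases h : j = i
        · subst h
          rw [Pi.single_eq_same, map_one, if_pos rfl]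
          ring
        · rw [Pi.single_eq_of_ne (fun h' => h h'.symm), map_zero, if_neg h]
          ring
      rw [Finset.sum_congr rfl fun j _ => h2 j, Finset.sum_add_distrib, ← Finset.mul_sum, Finset.sum_ite_eq',
        if_pos (Finset.mem_univ i)]
      ring
    rw [this]
    have e : (fun y : Fin m → ℂ => eval y (p * X i)) = (fun y => eval y p) * fun y => y i := by
      funext y
      simp
    rw [e]
    exact hp.mul hx

theorem eval_diffC (q : MvPolynomial (Fin m) ℂ) : Differentiable ℂ (fun y => eval y q) :=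
  fun z => (hasStrictC q z).hasFDerivAt.differentiableAt

/-- LOCAL INJECTIVITY of a polynomial map at a point with nonsingular derivative -/
theorem inj_near (T : Fin m → MvPolynomial (Fin m) ℝ) (x : Fin m → ℝ)
    (hdet : (Matrix.of fun b i => eval x (pderiv i (T b))).det ≠ 0) :
    ∃ U : Set (Fin m → ℂ), IsOpen U ∧ rc x ∈ U ∧
      InjOn (fun z (b : Fin m) => eval z (map (algebraMap ℝ ℂ) (T b))) U := by
  set M : Matrix (Fin m) (Fin m) ℂ := (Matrix.of fun b i => eval x (pderiv i (T b))).map (algebraMap ℝ ℂ) with hM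
  have hMd : M.det ≠ 0 := by
    have h1 : M.det = algebraMap ℝ ℂ (Matrix.of fun b i => eval x (pderiv i (T b))).det := by
      rw [RingHom.map_det]
      rfl
    rw [h1]
    exact fun h => hdet ((algebraMap ℝ ℂ).injective (by rw [h, map_zero]))
  set f : (Fin m → ℂ) →L[ℂ] (Fin m → ℂ) := LinearMap.toContinuousLinearMap (Matrix.toLin' M) with hf
  have hfd : f.det ≠ 0 := by
    have h1 : f.det = M.det := by
      show LinearMap.det (f : (Fin m → ℂ) →ₗ[ℂ] (Fin m → ℂ)) = M.det
      rw [hf]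
      exact LinearMap.det_toLin' M
    rw [h1]
    exact hMd
  have hst : HasStrictFDerivAt (fun z (b : Fin m) => eval z (map (algebraMap ℝ ℂ) (T b)))
      ((f.toContinuousLinearEquivOfDetNeZero hfd : (Fin m → ℂ) ≃L[ℂ] (Fin m → ℂ)) :
        (Fin m → ℂ) →L[ℂ] (Fin m → ℂ)) (rc x) := by
    rw [hasStrictFDerivAt_pi']
    intro b
    refine (hasStrictC (map (algebraMap ℝ ℂ) (T b)) (rc x)).congr_fderiv ?_
    ext w
    rw [dFc_apply]
    show _ = (f w) b
    rw [hf]
    show _ = (Matrix.toLin' M w) b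
    rw [Matrix.toLin'_apply, Matrix.mulVec, dotProduct]
    refine Finset.sum_congr rfl fun j _ => ?_
    congr 1
    rw [pderiv_map, eval_rc]
    rfl
  refine ⟨(hst.toOpenPartialHomeomorph _).source, (hst.toOpenPartialHomeomorph _).open_source,
    hst.mem_toOpenPartialHomeomorph_source, ?_⟩
  exact (hst.toOpenPartialHomeomorph _).injOn

/-! ### the point on the slice -/

/-- a real line as a complex line -/
theorem rc_line (x w : Fin m → ℝ) (s : ℝ) : rc (fun i => x i + s * w i) = fun i => (x i : ℂ) + (s : ℂ) * (w i : ℂ) := by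
  funext i
  simp [rc]

theorem slice_pt (m D : ℕ) : ∃ C : ℝ, 1 ≤ C ∧ ∀ T : Fin m → MvPolynomial (Fin m) ℝ, (∀ b, (T b).totalDegree ≤ D) →
    ∀ R : ℝ, 1 < R → ∀ G : Fin m → (Fin m → ℂ) → ℂ, (∀ j, DifferentiableOn ℂ (G j) (ball 0 R)) →
    ∀ E : Set (Fin m → ℝ), volume ((fun x b => eval x (T b)) '' E) ≠ 0 →
    (∀ x ∈ E, (∀ b, 0 ≤ eval x (T b) ∧ eval x (T b) ≤ 1) ∧ (Matrix.of fun b i => eval x (pderiv i (T b))).det ≠ 0 ∧
      ∀ j, G j (rc fun b => eval x (T b)) = ((x j : ℝ) : ℂ)) →
    ∀ x ∈ E, ∀ (w : Fin m → ℝ) (Λ l : ℝ), 0 < l →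
    (∀ s : ℝ, |s| ≤ 1 → ∀ b, |eval (fun i => x i + s * w i) (T b)| ≤ Λ) →
    ∀ a, l ≤ |∑ i, w i * eval x (pderiv i (T a))| → C * Λ ≤ l ^ 2 → C * Λ / l < R →
    ∃ t : ℝ, |t| ≤ 1 ∧ eval (fun i => x i + t * w i) (T a) = 0 ∧
      (∀ b, |eval (fun i => x i + t * w i) (T b)| ≤ C * Λ / l) ∧
      ∀ j, G j (rc fun b => eval (fun i => x i + t * w i) (T b)) = ((x j + t * w j : ℝ) : ℂ) := by
  obtain ⟨K, hK, hpoly⟩ := poly_two D
  refine ⟨16 * K ^ 2, by nlinarith, ?_⟩
  intro T hT R hR G hG E hvol hE x hx w Λ l hl hΛ a hla hCl hCR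
  have hR0 : 0 < R := by linarith
  obtain ⟨hx01, hdet, hGx⟩ := hE x hx
  -- the values on the line
  have hP : ∀ b, |(lnP x w (T b)).coeff 1| ≤ K * Λ ∧ ∀ s : ℝ, |s| ≤ 1 →
      |(lnP x w (T b)).eval s - (lnP x w (T b)).coeff 0| ≤ K * Λ * |s| ∧
      |(lnP x w (T b)).eval s - (lnP x w (T b)).coeff 0 - (lnP x w (T b)).coeff 1 * s| ≤ K * Λ * s ^ 2 := by
    intro b
    refine hpoly _ (lnP_natDegree x w (hT b)) Λ fun s hs => ?_
    rw [lnP_eval]
    exact hΛ s hs b
  simp only [lnP_coeff_zero, lnP_coeff_one, lnP_eval] at hP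
  set c1 : ℝ := ∑ i, w i * eval x (pderiv i (T a)) with hc1
  have hlK : l ≤ K * Λ := hla.trans (hP a).1
  have hΛ0 : 0 < Λ := by
    by_contra h
    push Not at h
    have : K * Λ ≤ 0 := mul_nonpos_of_nonneg_of_nonpos (by linarith) h
    linarith
  have hl16 : 16 * K ≤ l := by
    have h1 : 16 * K * l ≤ l * l := by
      calc 16 * K * l ≤ 16 * K * (K * Λ) := mul_le_mul_of_nonneg_left hlK (by linarith)
        _ = 16 * K ^ 2 * Λ := by ring
        _ ≤ l ^ 2 := hCl
        _ = l * l := by ring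
    exact le_of_mul_le_mul_right h1 hl
  have hKl : 1 ≤ K * Λ / l := by
    rw [le_div_iff₀ hl]
    linarith
  have h2l : 2 / l ≤ 1 := by
    rw [div_le_one hl]
    linarith
  have h2l0 : 0 ≤ 2 / l := by positivity
  -- bounds for small `s`
  have hsm : ∀ s : ℝ, |s| ≤ 2 / l → ∀ b, |eval (fun i => x i + s * w i) (T b)| ≤ 16 * K ^ 2 * Λ / l := by
    intro s hs b
    have h1 := ((hP b).2 s (hs.trans h2l)).1
    have h2 : |eval x (T b)| ≤ 1 := by
      rw [abs_of_nonneg (hx01 b).1]
      exact (hx01 b).2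
    have h3 : |eval (fun i => x i + s * w i) (T b)| ≤ K * Λ * |s| + 1 := by
      have := abs_add_le (eval (fun i => x i + s * w i) (T b) - eval x (T b)) (eval x (T b))
      rw [sub_add_cancel] at this
      linarith
    have h4 : K * Λ * |s| ≤ 2 * (K * Λ / l) := by
      calc K * Λ * |s| ≤ K * Λ * (2 / l) := mul_le_mul_of_nonneg_left hs (by positivity)
        _ = 2 * (K * Λ / l) := by ring
    have h5 : 3 * (K * Λ / l) ≤ 16 * K ^ 2 * Λ / l := by
      rw [← mul_div_assoc]
      apply div_le_div_of_nonneg_right _ hl.le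
      nlinarith [mul_nonneg (mul_nonneg (by linarith : (0 : ℝ) ≤ K) (by linarith : (0 : ℝ) ≤ K - 1)) hΛ0.le]
    linarith
  -- the end of the segment
  obtain ⟨s1, hs1, hneg⟩ : ∃ s1 : ℝ, |s1| ≤ 2 / l ∧ eval (fun i => x i + s1 * w i) (T a) ≤ 0 := by
    have h5 : K * Λ * (2 / l) ^ 2 ≤ 1 := by
      rw [div_pow, ← mul_div_assoc, div_le_one (by positivity)]
      nlinarith [mul_nonneg (mul_nonneg (by linarith : (0 : ℝ) ≤ K) (by linarith : (0 : ℝ) ≤ K - 1)) hΛ0.le]
    have hx1 := (hx01 a).2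
    rcases le_total 0 c1 with h | h
    · refine ⟨-(2 / l), by rw [abs_neg, abs_of_nonneg h2l0], ?_⟩
      have h1 := ((hP a).2 (-(2 / l)) (by rw [abs_neg, abs_of_nonneg h2l0]; exact h2l)).2
      rw [abs_le] at h1
      rw [abs_of_nonneg h] at hla
      have h6 : 2 ≤ c1 * (2 / l) := by
        rw [← mul_div_assoc, le_div_iff₀ hl]
        linarith
      have h7 : (-(2 / l)) ^ 2 = (2 / l) ^ 2 := by ring
      rw [h7] at h1
      linarith [h1.2]
    · refine ⟨2 / l, by rw [abs_of_nonneg h2l0], ?_⟩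
      have h1 := ((hP a).2 (2 / l) (by rw [abs_of_nonneg h2l0]; exact h2l)).2
      rw [abs_le] at h1
      rw [abs_of_nonpos h] at hla
      have h6 : 2 ≤ (-c1) * (2 / l) := by
        rw [← mul_div_assoc, le_div_iff₀ hl]
        linarith
      linarith [h1.2]
  -- the zero
  have hcl : Continuous fun s : ℝ => eval (fun i => x i + s * w i) (T a) := by
    have h1 : (fun s : ℝ => eval (fun i => x i + s * w i) (T a)) = fun s => (lnP x w (T a)).eval s := by
      funext s
      rw [lnP_eval]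
    rw [h1]
    exact (lnP x w (T a)).continuous
  obtain ⟨t, ht, ht0⟩ : ∃ t ∈ uIcc 0 s1, eval (fun i => x i + t * w i) (T a) = 0 := by
    have h1 := intermediate_value_uIcc (a := 0) (b := s1) hcl.continuousOn
    have h2 : (0 : ℝ) ∈ uIcc (eval (fun i => x i + 0 * w i) (T a)) (eval (fun i => x i + s1 * w i) (T a)) := by
      rw [mem_uIcc]
      right
      refine ⟨hneg, ?_⟩
      have h3 : (fun i => x i + 0 * w i) = x := by
        funext i
        ring
      rw [h3]
      exact (hx01 a).1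
    obtain ⟨t, h3, h4⟩ := h1 h2
    exact ⟨t, h3, h4⟩
  have hseg : ∀ s ∈ uIcc 0 t, |s| ≤ 2 / l := by
    intro s hs
    refine le_trans ?_ hs1
    rw [mem_uIcc] at hs ht
    rcases hs with hs | hs <;> rcases ht with ht | ht
    · rw [abs_of_nonneg hs.1, abs_of_nonneg (ht.1.trans ht.2)]
      linarith
    · have h1 : s = 0 := le_antisymm (hs.2.trans ht.2) hs.1
      rw [h1, abs_zero]
      exact abs_nonneg _
    · have h1 : s = 0 := le_antisymm hs.2 (ht.1.trans hs.1)
      rw [h1, abs_zero]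
      exact abs_nonneg _
    · rw [abs_of_nonpos hs.2, abs_of_nonpos (ht.1.trans ht.2)]
      linarith
  have htl : |t| ≤ 2 / l := hseg t right_mem_uIcc
  refine ⟨t, htl.trans h2l, ht0, hsm t htl, ?_⟩
  -- the chart and its inverse
  set Tc : (Fin m → ℂ) → (Fin m → ℂ) := fun z b => eval z (map (algebraMap ℝ ℂ) (T b)) with hTc
  have hTcr : ∀ y : Fin m → ℝ, Tc (rc y) = rc fun b => eval y (T b) := by
    intro y
    funext b
    exact eval_rc (T b) y
  have hTcd : Differentiable ℂ Tc := differentiable_pi.mpr fun b => eval_diffC _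
  have hTG : ∀ y ∈ ball (0 : Fin m → ℂ) R, Tc (fun j => G j y) = y := by
    intro y hy
    funext b
    have h1 := ident m hR (F := fun y => Tc (fun j => G j y) b - y b) ?_
      ((fun x b => eval x (T b)) '' E) ?_ hvol y hy
    · exact sub_eq_zero.mp h1
    · refine DifferentiableOn.sub ?_ (differentiable_apply b).differentiableOn
      have h2 : DifferentiableOn ℂ (fun y => fun j => G j y) (ball 0 R) := differentiableOn_pi.mpr hG
      exact (eval_diffC (map (algebraMap ℝ ℂ) (T b))).comp_differentiableOn h2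
    · rintro _ ⟨x', hx', rfl⟩
      obtain ⟨h1, -, h3⟩ := hE x' hx'
      refine ⟨h1, ?_⟩
      have h4 : (fun j => G j (rc fun b => eval x' (T b))) = rc x' := funext h3
      have h5 : Tc (fun j => G j (rc fun b => eval x' (T b))) b - ((eval x' (T b) : ℝ) : ℂ) = 0 := by
        rw [h4, hTcr]
        exact sub_self _
      exact h5
  -- the complex line
  set L : ℂ → (Fin m → ℂ) := fun ζ i => (x i : ℂ) + ζ * (w i : ℂ) with hL
  have hLd : Differentiable ℂ L := differentiable_pi.mpr fun i =>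
    (differentiable_id.mul_const _).const_add _
  have hL0 : L 0 = rc x := by
    funext i
    simp [hL, rc]
  have hLr : ∀ s : ℝ, L (s : ℂ) = rc fun i => x i + s * w i := fun s => (rc_line x w s).symm
  set U : Set ℂ := (fun ζ => Tc (L ζ)) ⁻¹' ball 0 R with hU
  have hUo : IsOpen U := isOpen_ball.preimage (hTcd.comp hLd).continuous
  have hSU : (fun s : ℝ => (s : ℂ)) '' uIcc 0 t ⊆ U := by
    rintro _ ⟨s, hs, rfl⟩
    show Tc (L (s : ℂ)) ∈ ball 0 R
    rw [hLr, hTcr, mem_ball_zero_iff, pi_norm_lt_iff hR0]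
    intro b
    have h1 := hsm s (hseg s hs) b
    show ‖((eval (fun i => x i + s * w i) (T b) : ℝ) : ℂ)‖ < R
    rw [Complex.norm_real, Real.norm_eq_abs]
    exact lt_of_le_of_lt h1 hCR
  have h0U : (0 : ℂ) ∈ U := hSU ⟨0, left_mem_uIcc, by simp⟩
  obtain ⟨V, hVo, hxV, hVi⟩ := inj_near T x hdet
  have hGc : ContinuousOn (fun y : Fin m → ℂ => fun j => G j y) (ball 0 R) :=
    continuousOn_pi.mpr fun j => (hG j).continuousOn
  have hGL : ContinuousAt (fun ζ => fun j => G j (Tc (L ζ))) 0 := by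
    have h1 : ContinuousAt (fun y : Fin m → ℂ => fun j => G j y) (Tc (L 0)) :=
      hGc.continuousAt (isOpen_ball.mem_nhds h0U)
    exact h1.comp (f := fun ζ => Tc (L ζ)) (hTcd.comp hLd).continuous.continuousAt
  have hGL0 : (fun j => G j (Tc (L 0))) = rc x := by
    rw [hL0, hTcr]
    exact funext hGx
  have hev : ∀ᶠ ζ in 𝓝 (0 : ℂ), (fun j => G j (Tc (L ζ))) = L ζ := by
    have h1 : ∀ᶠ ζ in 𝓝 (0 : ℂ), (fun j => G j (Tc (L ζ))) ∈ V := by
      refine hGL.eventually_mem ?_
      rw [hGL0]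
      exact hVo.mem_nhds hxV
    have h2 : ∀ᶠ ζ in 𝓝 (0 : ℂ), L ζ ∈ V := by
      refine hLd.continuous.continuousAt.eventually_mem ?_
      rw [hL0]
      exact hVo.mem_nhds hxV
    filter_upwards [h1, h2, hUo.mem_nhds h0U] with ζ a1 a2 a3
    exact hVi a1 a2 (hTG _ a3)
  intro j
  have hf : DifferentiableOn ℂ (fun ζ => G j (Tc (L ζ)) - L ζ j) U := by
    refine DifferentiableOn.sub ?_ (differentiable_pi.mp hLd j).differentiableOn
    exact (hG j).comp (hTcd.comp hLd).differentiableOn fun ζ hζ => hζ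
  have hz := ((hf.analyticOnNhd hUo).mono hSU).eqOn_zero_of_preconnected_of_eventuallyEq_zero
    (isPreconnected_uIcc.image _ Complex.continuous_ofReal.continuousOn) (z₀ := 0) ⟨0, left_mem_uIcc, by simp⟩ (by
      filter_upwards [hev] with ζ h1
      show G j (Tc (L ζ)) - L ζ j = 0
      exact sub_eq_zero.mpr (congrFun h1 j))
  have h6 : G j (Tc (L (t : ℂ))) - L (t : ℂ) j = 0 := hz ⟨t, right_mem_uIcc, rfl⟩
  rw [hLr, hTcr] at h6
  exact sub_eq_zero.mp h6

end Pool.Agent.Helper91.SLC
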